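import Mathlib
import Pool.Agent.Y825.GC.Petersen

/-!
# A universal multiplier for faithful circuit covers: odd numbers do not work

`Bridgeless G`, `Eulerian G w`, `Admissible G w`, `FaithfulCover G w` are the notions of the problem
for a simple graph `G` and a weight `w` of the pairs of vertices
(`Pool/Agent/Y825/GC/Petersen.lean`).
-/

set_option autoImplicit false

namespace Pool.Agent.Results.MP_48d738_co.OddMultipliersFail

open Pool.Agent.Y825.GC

/-- There are a bridgeless cubic graph `G` with ten vertices and a weight `p` of its edges with the
values `1` and `2` such that all multiples `k p` are eulerian and admissible and `(G, k p)` has a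
faithful circuit cover if and only if `k` is even.  So no odd `k` has the property of the
problem. -/
theorem result : ∃ (G : SimpleGraph (Fin 10)) (p : Sym2 (Fin 10) → ℕ),
    Bridgeless G ∧ (∀ v, (G.neighborSet v).ncard = 3) ∧
    (∀ a b, G.Adj a b → p s(a, b) = 1 ∨ p s(a, b) = 2) ∧
    ∀ k : ℕ, Eulerian G (fun e => k * p e) ∧ Admissible G (fun e => k * p e) ∧
      (FaithfulCover G (fun e => k * p e) ↔ Even k) :=
  ⟨Gr, wt, no_bridge, cubic, fun a b h => bs_val a b h,
    fun k => ⟨eulerian k, admissible k, cover_iff k⟩⟩

end Pool.Agent.Results.MP_48d738_co.OddMultipliersFail
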